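import Mathlib
import Pool.Agent.Y627.SP.All

set_option autoImplicit false

namespace Pool.Agent.Results.MP_6428c8_nt.TypeSpectrum

open Polynomial Filter

/-- The naive height of an integer polynomial: the maximum absolute value of its coefficients. -/
def height (P : ℤ[X]) : ℕ := P.support.sup (fun i => (P.coeff i).natAbs)

/-- `P` is the minimal polynomial over the integers of the real number `α`: the primitive integer
polynomial of least positive degree with positive leading coefficient that vanishes at `α`. -/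
def IsMinimalPolynomial (P : ℤ[X]) (α : ℝ) : Prop :=
  P.IsPrimitive ∧ 0 < P.leadingCoeff ∧ 0 < P.natDegree ∧ aeval α P = 0 ∧
    ∀ Q : ℤ[X], Q ≠ 0 → aeval α Q = 0 → P.natDegree ≤ Q.natDegree

/-- Mahler's exponent `w_n(ξ)`, in the extended reals. -/
noncomputable def wMahler (ξ : ℝ) (n : ℕ) : EReal :=
  sSup {W : EReal | ∃ w : ℝ, W = (w : EReal) ∧
    {P : ℤ[X] | P.natDegree ≤ n ∧ 0 < |aeval ξ P| ∧
      |aeval ξ P| ≤ (height P : ℝ) ^ (-w)}.Infinite}

/-- Koksma's exponent `w_n^*(ξ)`, in the extended reals. -/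
noncomputable def wKoksma (ξ : ℝ) (n : ℕ) : EReal :=
  sSup {W : EReal | ∃ w : ℝ, W = (w : EReal) ∧
    {α : ℝ | ∃ P : ℤ[X], IsMinimalPolynomial P α ∧ P.natDegree ≤ n ∧ 0 < |ξ - α| ∧
      |ξ - α| ≤ (height P : ℝ) ^ (-w - 1)}.Infinite}

/-- A real S-number: transcendental with `limsup w_n(ξ) / n < ∞`. -/
def IsSNumber (ξ : ℝ) : Prop :=
  Transcendental ℚ ξ ∧ limsup (fun n : ℕ => wMahler ξ n / (n : EReal)) atTop < ⊤

/-- The lim sup over `n` of `(W_n + 1) / (n + 1)`. -/
noncomputable def limsupType (W : ℕ → EReal) : EReal :=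
  limsup (fun n : ℕ => (W n + 1) / ((n : EReal) + 1)) atTop

/-- The supremum over `n ≥ 1` of `(W_n + 1) / (n + 1)`. -/
noncomputable def supType (W : ℕ → EReal) : EReal :=
  ⨆ (n : ℕ) (_ : 1 ≤ n), (W n + 1) / ((n : EReal) + 1)

/-- The lim sup is `t`, the supremum is `s`, and it is attained at degree `d` and at no other
degree. -/
def HasTypes (W : ℕ → EReal) (d : ℕ) (t s : ℝ) : Prop :=
  limsupType W = (t : EReal) ∧ supType W = (s : EReal) ∧
    (W d + 1) / ((d : EReal) + 1) = (s : EReal) ∧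
    ∀ n : ℕ, 1 ≤ n → n ≠ d → (W n + 1) / ((n : EReal) + 1) < (s : EReal)

/-- The S-numbers with `w_n(ξ) = w_n^*(ξ) = w_n` for all `n ≥ 1`. -/
def Prescribed (w : ℕ → ℝ) : Set ℝ :=
  {ξ : ℝ | IsSNumber ξ ∧
    ∀ n : ℕ, 1 ≤ n → wMahler ξ n = (w n : EReal) ∧ wKoksma ξ n = (w n : EReal)}

lemma ratio_coe (a : ℝ) (n : ℕ) :
    ((a : EReal) + 1) / ((n : EReal) + 1) = (((a + 1) / ((n : ℝ) + 1) : ℝ) : EReal) := by
  rw [EReal.coe_div]
  push_cast
  rfl

lemma exists_prescribed (av : ℕ → ℝ) (w : ℕ → ℝ) (hw1 : ∀ n : ℕ, 1 ≤ n → (n : ℝ) ≤ w n)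
    (hw2 : ∀ i j : ℕ, 1 ≤ i → i ≤ j → w i ≤ w j) (C : ℝ) (hC : ∀ n : ℕ, 1 ≤ n → w n ≤ C * n) :
    ∃ ξ ∈ Prescribed w, ∀ k, ξ ≠ av k := by
  obtain ⟨ξ, h0, h1, h2, h3⟩ := Pool.Agent.Y627.SP.all_deg av w hw1 hw2
  have hroot := Pool.Agent.Y627.SP.no_root ξ w h1
  have hM : ∀ n : ℕ, 1 ≤ n → wMahler ξ n = (w n : EReal) := by
    intro n hn
    have hn0 : (1 : ℝ) ≤ n := by exact_mod_cast hn
    have hwn := hw1 n hn
    exact le_antisymm (Pool.Agent.W71.wM_le ξ _ (h1 n hn))
        (Pool.Agent.Y627.SP.wM_ge ξ _ (by linarith) hroot (h3 n hn))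
  refine ⟨ξ, ⟨⟨Pool.Agent.Y627.SP.trans_of_no_root ξ hroot, ?_⟩, ?_⟩, h0⟩
  · refine lt_of_le_of_lt (b := (C : EReal)) ?_ (EReal.coe_lt_top _)
    apply limsup_le_of_le
    · isBoundedDefault
    · filter_upwards [eventually_ge_atTop 1] with n hn
      have hn0 : (0 : ℝ) < n := by exact_mod_cast hn
      rw [hM n hn]
      have e1 : ((w n : ℝ) : EReal) / (n : EReal) = ((w n / (n : ℝ) : ℝ) : EReal) := by
        rw [EReal.coe_div]; rfl
      rw [e1, EReal.coe_le_coe_iff, div_le_iff₀ hn0]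
      exact hC n hn
  · intro n hn
    have hn0 : (1 : ℝ) ≤ n := by exact_mod_cast hn
    have hwn := hw1 n hn
    exact ⟨hM n hn, le_antisymm (Pool.Agent.W71.wK_le ξ _ (by linarith) (h1 n hn))
        (Pool.Agent.Y627.SP.wK_ge ξ _ (by linarith) hroot (h3 n hn))⟩

/-- the sequence with a peak at `d` -/
noncomputable def pk (d : ℕ) (t s : ℝ) (n : ℕ) : ℝ :=
  if n < d then n else max (s * (d + 1) - 1) (t * (n + 1) - 1)

lemma pk_ratio_lt (d : ℕ) (t s : ℝ) (hts : t < s) (ht : 1 ≤ t) (n : ℕ) (hn : 1 ≤ n)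
    (hnd : n ≠ d) : (pk d t s n + 1) / ((n : ℝ) + 1) < s := by
  have hn1 : (0 : ℝ) < (n : ℝ) + 1 := by positivity
  rw [div_lt_iff₀ hn1]
  unfold pk
  split_ifs with h
  · nlinarith
  · have hdn : d < n := by omega
    have hdn' : (d : ℝ) + 1 ≤ n := by exact_mod_cast hdn
    have h1 : max (s * ((d : ℝ) + 1) - 1) (t * (n + 1) - 1) < s * (n + 1) - 1 :=
      max_lt (by nlinarith) (by nlinarith)
    linarith

lemma pk_ratio_d (d : ℕ) (t s : ℝ) (hts : t < s) :
    (pk d t s d + 1) / ((d : ℝ) + 1) = s := by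
  have hd1 : (0 : ℝ) < (d : ℝ) + 1 := by positivity
  unfold pk
  rw [if_neg (lt_irrefl d), max_eq_left (by nlinarith)]
  field_simp
  ring

lemma hasTypes_pk (W : ℕ → EReal) (d : ℕ) (hd : 1 ≤ d) (t s : ℝ) (ht : 1 ≤ t) (hts : t < s)
    (hW : ∀ n : ℕ, 1 ≤ n → W n = (pk d t s n : EReal)) : HasTypes W d t s := by
  have hlt : ∀ n : ℕ, 1 ≤ n → n ≠ d → (W n + 1) / ((n : EReal) + 1) < (s : EReal) := by
    intro n hn hnd
    rw [hW n hn, ratio_coe, EReal.coe_lt_coe_iff]
    exact pk_ratio_lt d t s hts ht n hn hnd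
  have hdd : (W d + 1) / ((d : EReal) + 1) = (s : EReal) := by
    rw [hW d hd, ratio_coe, pk_ratio_d d t s hts]
  refine ⟨?_, ?_, hdd, hlt⟩
  · -- limsup
    obtain ⟨N, hN⟩ := exists_nat_ge (max (d : ℝ) (s * (d + 1) / t))
    apply Tendsto.limsup_eq
    apply tendsto_const_nhds.congr'
    filter_upwards [eventually_ge_atTop (max N 1)] with n hn
    have hn1 : 1 ≤ n := (le_max_right _ _).trans hn
    have hnN : (N : ℝ) ≤ n := by exact_mod_cast (le_max_left _ _).trans hn
    have hdn : (d : ℝ) ≤ n := ((le_max_left _ _).trans hN).trans hnN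
    have hdn' : ¬ n < d := by
      have : d ≤ n := by exact_mod_cast hdn
      omega
    have h1 : s * ((d : ℝ) + 1) / t ≤ n := ((le_max_right _ _).trans hN).trans hnN
    rw [div_le_iff₀ (by linarith)] at h1
    rw [hW n hn1, ratio_coe, EReal.coe_eq_coe_iff]
    unfold pk
    rw [if_neg hdn', max_eq_right (by nlinarith)]
    have : (0 : ℝ) < (n : ℝ) + 1 := by positivity
    field_simp
    ring
  · apply le_antisymm
    · apply iSup₂_le
      intro n hn
      by_cases hnd : n = d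
      · rw [hnd, hdd]
      · exact (hlt n hn hnd).le
    · exact le_iSup₂_of_le d hd hdd.ge

/-- (A) For every degree `d ≥ 1` and all reals `1 ≤ t < s` there is a real S-number `ξ` such that,
for Mahler's exponents `w_n(ξ)` and also for Koksma's exponents `w_n^*(ξ)`: the lim sup over `n` of
`(w_n + 1) / (n + 1)` is exactly `t`, the supremum over `n ≥ 1` is exactly `s`, and the supremum is
attained at degree `d` and at no other degree.
(B) In particular (the question) there is a real S-number for which both strict inequalities (1)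
and (2) hold.
(C) For every non-decreasing sequence of reals `w_n ≥ n` with `w_n ≤ C n` for some `C`, the S-numbers
with `w_n(ξ) = w_n^*(ξ) = w_n` for all `n ≥ 1` form an uncountable set. -/
theorem result :
    (∀ d : ℕ, 1 ≤ d → ∀ t s : ℝ, 1 ≤ t → t < s → ∃ ξ : ℝ, IsSNumber ξ ∧
      HasTypes (wMahler ξ) d t s ∧ HasTypes (wKoksma ξ) d t s) ∧
    (∃ ξ : ℝ, IsSNumber ξ ∧ limsupType (wMahler ξ) < supType (wMahler ξ) ∧
      limsupType (wKoksma ξ) < supType (wKoksma ξ)) ∧
    (∀ w : ℕ → ℝ, (∀ n : ℕ, 1 ≤ n → (n : ℝ) ≤ w n) →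
      (∀ m n : ℕ, 1 ≤ m → m ≤ n → w m ≤ w n) → (∃ C : ℝ, ∀ n : ℕ, 1 ≤ n → w n ≤ C * n) →
      ¬ (Prescribed w).Countable) := by
  have hA : ∀ d : ℕ, 1 ≤ d → ∀ t s : ℝ, 1 ≤ t → t < s → ∃ ξ : ℝ, IsSNumber ξ ∧
      HasTypes (wMahler ξ) d t s ∧ HasTypes (wKoksma ξ) d t s := by
    intro d hd t s ht hts
    have hdR : (1 : ℝ) ≤ d := by exact_mod_cast hd
    obtain ⟨ξ, ⟨h1, h2⟩, -⟩ := exists_prescribed (fun _ => 0) (pk d t s)
      (by
        intro n hn
        have hnR : (0 : ℝ) ≤ n := Nat.cast_nonneg n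
        unfold pk
        split_ifs
        · exact le_rfl
        · refine le_trans ?_ (le_max_right _ _)
          nlinarith)
      (by
        intro i j _ hij
        have hijR : (i : ℝ) ≤ j := by exact_mod_cast hij
        have hjR : (0 : ℝ) ≤ j := Nat.cast_nonneg j
        unfold pk
        split_ifs with h3 h4 h4
        · exact hijR
        · refine le_trans ?_ (le_max_right _ _)
          nlinarith
        · omega
        · apply max_le_max le_rfl
          nlinarith)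
      (s * (d + 1) + 2 * t)
      (by
        intro n hn
        have hnR : (1 : ℝ) ≤ n := by exact_mod_cast hn
        have hs : 0 < s * ((d : ℝ) + 1) := by
          have : 0 < s := by linarith
          positivity
        unfold pk
        split_ifs
        · nlinarith
        · apply max_le
          · nlinarith
          · nlinarith)
    exact ⟨ξ, h1, hasTypes_pk _ d hd t s ht hts (fun n hn => (h2 n hn).1),
      hasTypes_pk _ d hd t s ht hts (fun n hn => (h2 n hn).2)⟩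
  refine ⟨hA, ?_, ?_⟩
  · obtain ⟨ξ, h1, h2, h3⟩ := hA 1 le_rfl 1 2 le_rfl (by norm_num)
    refine ⟨ξ, h1, ?_, ?_⟩
    · rw [h2.1, h2.2.1, EReal.coe_lt_coe_iff]; norm_num
    · rw [h3.1, h3.2.1, EReal.coe_lt_coe_iff]; norm_num
  · rintro w hw1 hw2 ⟨C, hC⟩ hcount
    obtain ⟨av, hav⟩ := (hcount.union (Set.countable_singleton (0 : ℝ))).exists_eq_range
      ⟨0, Or.inr rfl⟩
    obtain ⟨ξ, hξ, hne⟩ := exists_prescribed av w hw1 hw2 C hC
    have : ξ ∈ Set.range av := by rw [← hav]; exact Or.inl hξ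
    obtain ⟨k, hk⟩ := this
    exact hne k hk.symm

end Pool.Agent.Results.MP_6428c8_nt.TypeSpectrum
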